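import Pool.Agent.helper17.HH.SpecR

/-!
# Row hh:RNB (case B)
-/

open scoped Pointwise

set_option autoImplicit false

namespace Pool.Agent.HH

noncomputable section

/-- the multiplier bound at some scale between `δ` and `ρ` -/
theorem RNB_scale (h : RCV_stmt) (C1 : ℝ) (hC1 : 1 ≤ C1)
    (h1 : ∀ (G : Finset ℝ) (δ D K m1 m2 m3 m4 m5 m6 r x x' : ℝ), 0 < δ → δ ≤ 1 → 1 ≤ D → 1 ≤ K → GC G δ D →
      MU G δ K m1 → MU G δ K m2 → MU G δ K m3 → MU G δ K m4 → MU G δ K m5 → MU G δ K m6 → r = |m5 - m6| → δ ≤ r → |m3 - m4| ≤ r → x = (m3 - m4) / (m5 - m6) → 0 ≤ x → (x' = x / 2 ∨ x' = (x + 1) / 2) →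
      (cov (δ / r) (G + dil (m1 + x' * m2) G) : ℝ) ≤ C1 * K ^ 26 * D ^ 2 * Real.sqrt (r / δ) ∧ (cov (δ / r) (G + (G + dil x G)) : ℝ) ≤ C1 * K ^ 26 * D ^ 2 * Real.sqrt (r / δ))
    (G M : Finset ℝ) (δ D K r1 ρ x : ℝ) (hδ : 0 < δ) (hδ1 : δ ≤ 1) (hD : 1 ≤ D) (hK : 1 ≤ K) (hG : GC G δ D) (hM : ∀ m ∈ M, MU G δ K m) (hr1 : 0 < r1) (hδρ : δ ≤ ρ * r1) (hρ : 0 < ρ) (hr11 : r1 ≤ 1) (hδr : δ ≤ r1)
    (hx : x ∈ QQ M r1) : ∃ d : ℝ, δ ≤ d ∧ d ≤ ρ ∧ (cov d (G + (G + dil x G)) : ℝ) ≤ 6 * C1 * K ^ 26 * D ^ 2 * Real.sqrt (1 / d) := by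
  obtain ⟨hx0, hx1, m3, hm3, m4, hm4, m5, hm5, m6, hm6, hr, hxe⟩ := hx
  have hr0 : 0 < |m5 - m6| := lt_of_lt_of_le hr1 hr
  have hne : m5 - m6 ≠ 0 := abs_pos.1 hr0
  have h34 : |m3 - m4| ≤ |m5 - m6| := by
    have e1 : |m3 - m4| = x * |m5 - m6| := by
      rw [← abs_of_nonneg hx0, hxe, abs_div, div_mul_cancel₀ _ hr0.ne']
    rw [e1]
    exact mul_le_of_le_one_left hr0.le hx1
  obtain ⟨-, k2⟩ := h1 G δ D K m3 m3 m3 m4 m5 m6 |m5 - m6| x (x / 2) hδ hδ1 hD hK hG (hM m3 hm3) (hM m3 hm3) (hM m3 hm3) (hM m4 hm4) (hM m5 hm5) (hM m6 hm6) rfl (hδr.trans hr) h34 hxe hx0 (Or.inl rfl)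
  set r : ℝ := |m5 - m6| with hrdef
  have hKD : 0 ≤ C1 * K ^ 26 * D ^ 2 := by positivity
  by_cases hr1' : r ≤ 1
  · refine ⟨δ / r, ?_, ?_, ?_⟩
    · rw [le_div_iff₀ hr0]
      exact mul_le_of_le_one_right hδ.le hr1'
    · rw [div_le_iff₀ hr0]
      exact hδρ.trans (mul_le_mul_of_nonneg_left hr hρ.le)
    · refine k2.trans ?_
      have e1 : 1 / (δ / r) = r / δ := by field_simp
      rw [e1]
      have e2 : 6 * C1 * K ^ 26 * D ^ 2 * Real.sqrt (r / δ) = 6 * (C1 * K ^ 26 * D ^ 2 * Real.sqrt (r / δ)) := by ring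
      rw [e2]
      have e3 : 0 ≤ C1 * K ^ 26 * D ^ 2 * Real.sqrt (r / δ) := mul_nonneg hKD (Real.sqrt_nonneg _)
      linarith
  · push Not at hr1'
    refine ⟨δ, le_rfl, hδρ.trans (mul_le_of_le_one_right hρ.le hr11), ?_⟩
    have hco : (cov δ (G + (G + dil x G)) : ℝ) ≤ 2 * cov (δ / r) (G + (G + dil x G)) := by
      have := h.co (δ / r) δ (G + (G + dil x G)) (by positivity) (div_le_self hδ.le hr1'.le)
      exact_mod_cast this
    have hr8 : r ≤ 9 := by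
      have a1 := (hM m5 hm5)
      have a2 := (hM m6 hm6)
      rw [hrdef, abs_le]
      constructor <;> linarith [a1.1, a1.2.1, a2.1, a2.2.1]
    have hs : Real.sqrt (r / δ) ≤ 3 * Real.sqrt (1 / δ) := by
      have e1 : Real.sqrt (r / δ) ≤ Real.sqrt (3 ^ 2 * (1 / δ)) := by
        apply Real.sqrt_le_sqrt
        rw [mul_one_div]
        apply div_le_div_of_nonneg_right _ hδ.le
        linarith
      rwa [Real.sqrt_mul (by norm_num), Real.sqrt_sq (by norm_num)] at e1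
    calc (cov δ (G + (G + dil x G)) : ℝ) ≤ 2 * cov (δ / r) (G + (G + dil x G)) := hco
      _ ≤ 2 * (C1 * K ^ 26 * D ^ 2 * Real.sqrt (r / δ)) := by linarith
      _ ≤ 2 * (C1 * K ^ 26 * D ^ 2 * (3 * Real.sqrt (1 / δ))) := by
          have := mul_le_mul_of_nonneg_left hs hKD
          linarith
      _ = _ := by ring

theorem RNB_proof (h : RCV_stmt) (h1 : RMS_stmt) (h2 : RCG_stmt) (h3 : RDN_stmt) (h4 : RKL_stmt) : RNB_stmt := by
  classical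
  obtain ⟨C1, hC1, h1⟩ := h1
  obtain ⟨C2, hC2, h2⟩ := h2
  obtain ⟨C3, hC3, h4⟩ := h4
  have hC12 : 1 ≤ C1 * C2 := one_le_mul_of_one_le_of_one_le hC1 hC2
  have hC123 : 1 ≤ C1 * C2 * C3 := one_le_mul_of_one_le_of_one_le hC12 hC3
  refine ⟨48 * (C1 * C2 * C3), by linarith, ?_⟩
  intro G M δ D K r1 ρ hδ hδ1 hD hK hG hM hr1 hr11 hρ hρ8 hδρ hδr hex hdense hsmall
  obtain ⟨m5, hm5, m6, hm6, hm56⟩ := hex
  have hQ0 : (0 : ℝ) ∈ QQ M r1 := ⟨le_rfl, zero_le_one, m5, hm5, m5, hm5, m5, hm5, m6, hm6, hm56, by simp⟩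
  have hQ1 : QQ M r1 ⊆ Set.Icc 0 1 := fun x hx => ⟨hx.1, hx.2.1⟩
  have hdn := h3 (QQ M r1) ρ hρ hQ1 hQ0 hdense
  -- the points
  set J : ℕ := ⌊1 / (8 * ρ)⌋₊ with hJ
  have hJle : (J : ℝ) ≤ 1 / (8 * ρ) := Nat.floor_le (by positivity)
  have hJlt : 1 / (8 * ρ) < J + 1 := Nat.lt_floor_add_one _
  have ht : ∀ j ∈ Finset.range (J + 1), 8 * ρ * (j : ℝ) ∈ Set.Icc (0 : ℝ) 1 := by
    intro j hj
    have hj' : (j : ℝ) ≤ J := by exact_mod_cast Nat.lt_succ_iff.1 (Finset.mem_range.1 hj)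
    refine ⟨by positivity, ?_⟩
    have h8 : 0 < 8 * ρ := by positivity
    have := mul_le_mul_of_nonneg_left (hj'.trans hJle) h8.le
    rw [mul_one_div, div_self h8.ne'] at this
    exact this
  have hch : ∀ j ∈ Finset.range (J + 1), ∃ x ∈ QQ M r1, |x - 8 * ρ * (j : ℝ)| ≤ 3 * ρ := fun j hj => hdn _ (ht j hj)
  choose! f hf using hch
  set X : Finset ℝ := (Finset.range (J + 1)).image f with hX
  have hsep : ∀ i ∈ Finset.range (J + 1), ∀ j ∈ Finset.range (J + 1), i ≠ j → 2 * ρ ≤ |f i - f j| := by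
    intro i hi j hj hij
    obtain ⟨-, a1⟩ := hf i hi
    obtain ⟨-, a2⟩ := hf j hj
    have h0 : 1 ≤ |(i : ℝ) - j| := by
      have h01 : (1 : ℤ) ≤ |(i : ℤ) - j| := Int.one_le_abs (sub_ne_zero.2 (by exact_mod_cast hij))
      exact_mod_cast h01
    have h02 : 8 * ρ ≤ |8 * ρ * (i : ℝ) - 8 * ρ * j| := by
      rw [← mul_sub, abs_mul, abs_of_pos (by positivity : (0 : ℝ) < 8 * ρ)]
      exact le_mul_of_one_le_right (by positivity) h0
    have h03 : |8 * ρ * (i : ℝ) - 8 * ρ * j| ≤ |f i - f j| + (|f i - 8 * ρ * (i : ℝ)| + |f j - 8 * ρ * (j : ℝ)|) := by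
      have e : 8 * ρ * (i : ℝ) - 8 * ρ * j = (f i - f j) - (f i - 8 * ρ * (i : ℝ)) + (f j - 8 * ρ * (j : ℝ)) := by ring
      rw [e]
      have b1 := abs_add_le ((f i - f j) - (f i - 8 * ρ * (i : ℝ))) (f j - 8 * ρ * (j : ℝ))
      have b2 := abs_sub (f i - f j) (f i - 8 * ρ * (i : ℝ))
      linarith
    linarith
  have hXc : X.card = J + 1 := by
    rw [hX, Finset.card_image_of_injOn, Finset.card_range]
    intro i hi j hj hij
    by_contra hne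
    have h5 := hsep i hi j hj hne
    have h6 : f i - f j = 0 := sub_eq_zero.2 hij
    rw [h6, abs_zero] at h5
    linarith
  have hs0 : 0 < Real.sqrt (1 / ρ) := Real.sqrt_pos.2 (by positivity)
  set T : ℝ := 6 * C1 * C2 * K ^ 26 * D ^ 4 * Real.sqrt (1 / ρ) with hT
  have hT0 : 0 < T := by positivity
  have hcov : ∀ x ∈ X, (cov ρ (G + dil x G) : ℝ) ≤ T := by
    intro x hx
    obtain ⟨j, hj, rfl⟩ := Finset.mem_image.1 hx
    obtain ⟨d, d1, d2, d3⟩ := RNB_scale h C1 hC1 h1 G M δ D K r1 ρ (f j) hδ hδ1 hD hK hG hM hr1 hδρ hρ hr11 hδr (hf j hj).1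
    have hd0 : 0 < d := lt_of_lt_of_le hδ d1
    have h5 := h2 G δ D d ρ (f j) (6 * C1 * K ^ 26 * D ^ 2 * Real.sqrt (1 / d)) hδ d1 d2 (by linarith) hD hG d3
    refine h5.trans (le_of_eq ?_)
    have e1 : Real.sqrt (1 / d) * Real.sqrt (d / ρ) = Real.sqrt (1 / ρ) := by
      rw [← Real.sqrt_mul (by positivity)]
      congr 1
      field_simp
    calc C2 * D ^ 2 * (6 * C1 * K ^ 26 * D ^ 2 * Real.sqrt (1 / d)) * Real.sqrt (d / ρ) = 6 * C1 * C2 * K ^ 26 * D ^ 4 * (Real.sqrt (1 / d) * Real.sqrt (d / ρ)) := by ring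
      _ = T := by rw [e1]
  have hρs : ρ * Real.sqrt (1 / ρ) = Real.sqrt ρ := by
    have e1 : Real.sqrt ρ * Real.sqrt ρ = ρ := Real.mul_self_sqrt hρ.le
    rw [Real.sqrt_div (by norm_num), Real.sqrt_one]
    have hsp : 0 < Real.sqrt ρ := Real.sqrt_pos.2 hρ
    field_simp
    exact (Real.sq_sqrt hρ.le).symm
  have hcond : C3 * D ^ 2 * T ≤ 1 / ρ := by
    rw [le_div_iff₀ hρ]
    have e1 : C3 * D ^ 2 * T * ρ = 6 * (C1 * C2 * C3) * K ^ 26 * D ^ 6 * (ρ * Real.sqrt (1 / ρ)) := by rw [hT]; ring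
    rw [e1, hρs]
    have e2 : 6 * (C1 * C2 * C3) * K ^ 26 * D ^ 6 * Real.sqrt ρ ≤ 48 * (C1 * C2 * C3) * K ^ 26 * D ^ 6 * Real.sqrt ρ := by
      have hnn : 0 ≤ (C1 * C2 * C3) * K ^ 26 * D ^ 6 * Real.sqrt ρ := by positivity
      have e3 : 6 * (C1 * C2 * C3) * K ^ 26 * D ^ 6 * Real.sqrt ρ = 6 * ((C1 * C2 * C3) * K ^ 26 * D ^ 6 * Real.sqrt ρ) := by ring
      have e4 : 48 * (C1 * C2 * C3) * K ^ 26 * D ^ 6 * Real.sqrt ρ = 48 * ((C1 * C2 * C3) * K ^ 26 * D ^ 6 * Real.sqrt ρ) := by ring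
      rw [e3, e4]
      linarith
    exact e2.trans hsmall
  have hkl := h4 G X δ D ρ T hδ (hδρ.trans (mul_le_of_le_one_right hρ.le hr11)) (by linarith) hD hG ?_ ?_ hT0 hcov hcond
  · rw [hXc] at hkl
    push_cast at hkl
    have h5 : 1 / (8 * ρ) ≤ C3 * D ^ 4 * T * (1 + Real.log (1 / ρ)) := hJlt.le.trans hkl
    rw [div_le_iff₀ (by positivity)] at h5
    refine h5.trans (le_of_eq ?_)
    calc C3 * D ^ 4 * T * (1 + Real.log (1 / ρ)) * (8 * ρ) = 48 * (C1 * C2 * C3) * K ^ 26 * D ^ 8 * (ρ * Real.sqrt (1 / ρ)) * (1 + Real.log (1 / ρ)) := by rw [hT]; ring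
      _ = _ := by rw [hρs]
  · intro x hx
    obtain ⟨j, hj, rfl⟩ := Finset.mem_image.1 hx
    have := hQ1 (hf j hj).1
    rw [abs_le]
    constructor <;> linarith [this.1, this.2]
  · intro x hx y hy hxy
    obtain ⟨i, hi, rfl⟩ := Finset.mem_image.1 hx
    obtain ⟨j, hj, rfl⟩ := Finset.mem_image.1 hy
    have hij : i ≠ j := fun hij => hxy (by rw [hij])
    have := hsep i hi j hj hij
    linarith

end

end Pool.Agent.HH
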